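import Pool.Agent.Helper22.TB.Goals

/-!
# Packet TB-KER (MP_74f661_nt): the Poisson kernel
-/

set_option autoImplicit false

namespace Pool.Agent.Helper6.TB

open Pool.Agent.Helper22.TB

theorem ker_den (θ r : ℝ) (h0 : 0 ≤ r) (h1 : r < 1) : 0 < 1 + 2 * r * Real.cos θ + r ^ 2 := by
  have h2 : -1 ≤ Real.cos θ := Real.neg_one_le_cos θ
  have h3 : 2 * r * (-1) ≤ 2 * r * Real.cos θ :=
    mul_le_mul_of_nonneg_left h2 (by linarith)
  nlinarith [sq_nonneg (1 - r), mul_pos (sub_pos.mpr h1) (sub_pos.mpr h1)]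

theorem ker_pow (θ r : ℝ) (n : ℕ) :
    (((-r : ℝ) * Complex.exp (θ * Complex.I)) ^ n).re = (-1) ^ n * Real.cos (θ * n) * r ^ n := by
  rw [mul_pow, ← Complex.exp_nat_mul]
  have h1 : ((n : ℂ) * ((θ : ℂ) * Complex.I)) = ((θ * n : ℝ) : ℂ) * Complex.I := by
    push_cast; ring
  rw [h1, ← Complex.ofReal_pow, Complex.re_ofReal_mul, Complex.exp_ofReal_mul_I_re, neg_pow]
  ring

theorem ker_sum (θ r : ℝ) (h0 : 0 ≤ r) (h1 : r < 1) :
    HasSum (fun g : ℕ => (-1 : ℝ) ^ (g + 1) * Real.cos (θ * ((g + 1 : ℕ) : ℝ)) * r ^ (g + 1))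
      ((-r * Real.cos θ - r ^ 2) / (1 + 2 * r * Real.cos θ + r ^ 2)) := by
  set x : ℂ := ((-r : ℝ) : ℂ) * Complex.exp (θ * Complex.I) with hx
  have hre : x.re = -r * Real.cos θ := by
    rw [hx, Complex.re_ofReal_mul, Complex.exp_ofReal_mul_I_re]
  have him : x.im = -r * Real.sin θ := by
    rw [hx, Complex.im_ofReal_mul, Complex.exp_ofReal_mul_I_im]
  have hn : ‖x‖ < 1 := by
    rw [hx, norm_mul, Complex.norm_exp_ofReal_mul_I, mul_one, Complex.norm_real, Real.norm_eq_abs,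
      abs_neg, abs_of_nonneg h0]
    exact h1
  have hs : HasSum (fun g : ℕ => x * x ^ g) (x * (1 - x)⁻¹) :=
    (hasSum_geometric_of_norm_lt_one hn).mul_left x
  have hr := Complex.reCLM.hasSum hs
  have hval : Complex.reCLM (x * (1 - x)⁻¹) =
      (-r * Real.cos θ - r ^ 2) / (1 + 2 * r * Real.cos θ + r ^ 2) := by
    rw [Complex.reCLM_apply, Complex.mul_re, Complex.inv_re, Complex.inv_im]
    have hD : Complex.normSq (1 - x) = 1 + 2 * r * Real.cos θ + r ^ 2 := by
      rw [Complex.normSq_apply]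
      simp only [Complex.sub_re, Complex.sub_im, Complex.one_re, Complex.one_im, hre, him]
      have := Real.sin_sq_add_cos_sq θ
      linear_combination (r ^ 2) * this
    rw [hD]
    simp only [Complex.sub_re, Complex.sub_im, Complex.one_re, Complex.one_im, hre, him]
    have := Real.sin_sq_add_cos_sq θ
    rw [mul_div_assoc', mul_div_assoc', ← sub_div]
    congr 1
    linear_combination (-(r ^ 2)) * this
  rw [hval] at hr
  convert hr using 1
  funext g
  have h2 := ker_pow θ r (g + 1)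
  change _ = (x * x ^ g).re
  rw [← pow_succ', ← h2]

theorem gKER : G_KER := by
  intro θ r h0 h1
  have hD := ker_den θ r h0 h1
  have hs := ker_sum θ r h0 h1
  have hval : Pool.Agent.Helper22.TB.Ab r (fun g => Real.cos (θ * g)) =
      (1 - r ^ 2) / (1 + 2 * r * Real.cos θ + r ^ 2) := by
    unfold Pool.Agent.Helper22.TB.Ab
    rw [hs.tsum_eq]
    simp only [Nat.cast_zero, mul_zero, Real.cos_zero]
    field_simp
    ring
  refine ⟨hval, hD, ?_⟩
  rw [hval]
  apply div_nonneg _ hD.le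
  nlinarith

end Pool.Agent.Helper6.TB
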