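import Pool.Agent.Helper22.TB.Goals

/-!
# Packet TB-LOW (MP_74f661_nt): the small moduli
-/

set_option autoImplicit false

open Finset Filter Topology
open scoped Classical

namespace Pool.Agent.Helper6.TB

open Pool.Agent.Helper22.TB

theorem low_step (f : ℕ → ℝ) (j0 n : ℕ) :
    ∑ q ∈ (Icc 1 (2 ^ (j0 + (n + 1)))).filter SF6, f q =
      ∑ q ∈ (Icc 1 (2 ^ (j0 + n))).filter SF6, f q +
      ∑ q ∈ (Ioc (2 ^ (j0 + n)) (2 * 2 ^ (j0 + n))).filter SF6, f q := by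
  have h1 : (Icc 1 (2 ^ (j0 + (n + 1)))).filter SF6 = (Icc 1 (2 ^ (j0 + n))).filter SF6 ∪
      (Ioc (2 ^ (j0 + n)) (2 * 2 ^ (j0 + n))).filter SF6 := by
    rw [← filter_union]
    congr 1
    ext q
    have h2 : 2 ^ (j0 + (n + 1)) = 2 * 2 ^ (j0 + n) := by
      rw [← add_assoc, pow_succ]; ring
    have h3 : 1 ≤ 2 ^ (j0 + n) := Nat.one_le_two_pow
    rw [mem_union, mem_Icc, mem_Icc, mem_Ioc, h2]
    omega
  rw [h1, sum_union]
  rw [disjoint_left]
  intro q hq1 hq2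
  rw [mem_filter, mem_Icc] at hq1
  rw [mem_filter, mem_Ioc] at hq2
  omega

theorem low_split (f : ℕ → ℝ) (j0 n : ℕ) :
    ∑ q ∈ (Icc 1 (2 ^ (j0 + n))).filter SF6, f q = ∑ q ∈ (Icc 1 (2 ^ j0)).filter SF6, f q +
      ∑ i ∈ range n, ∑ q ∈ (Ioc (2 ^ (j0 + i)) (2 * 2 ^ (j0 + i))).filter SF6, f q := by
  induction n with
  | zero => simp
  | succ n ih =>
    rw [sum_range_succ, low_step f j0 n, ih, add_assoc]

theorem low_lim (C1 C : ℝ) (B : ℕ) (ε : ℝ) (hε : 0 < ε) : ∀ᶠ y : ℝ in atTop,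
    C1 + C * (2 * y) ^ (19 / 10 : ℝ) * (4 + 2 * B * Real.log y) ≤ ε * y ^ 2 := by
  have h1 : Tendsto (fun y : ℝ => C1 * y⁻¹ ^ 2 + C * 2 ^ (19 / 10 : ℝ) *
      (4 * y ^ (-(1 / 10) : ℝ) + 2 * B * (Real.log y / y ^ (1 / 10 : ℝ)))) atTop
      (𝓝 (C1 * 0 ^ 2 + C * 2 ^ (19 / 10 : ℝ) * (4 * 0 + 2 * B * 0))) := by
    refine ((tendsto_inv_atTop_zero.pow 2).const_mul C1).add ?_
    refine Tendsto.const_mul _ ?_
    refine ((tendsto_rpow_neg_atTop (by norm_num)).const_mul 4).add ?_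
    exact (isLittleO_log_rpow_atTop (by norm_num)).tendsto_div_nhds_zero.const_mul _
  have h0 : C1 * 0 ^ 2 + C * 2 ^ (19 / 10 : ℝ) * (4 * 0 + 2 * B * 0) = 0 := by ring
  rw [h0] at h1
  filter_upwards [h1.eventually (gt_mem_nhds hε), eventually_gt_atTop 0] with y hy hy0
  have h2 : C1 + C * (2 * y) ^ (19 / 10 : ℝ) * (4 + 2 * B * Real.log y) =
      (C1 * y⁻¹ ^ 2 + C * 2 ^ (19 / 10 : ℝ) *
      (4 * y ^ (-(1 / 10) : ℝ) + 2 * B * (Real.log y / y ^ (1 / 10 : ℝ)))) * y ^ 2 := by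
    have h3 : (2 * y) ^ (19 / 10 : ℝ) = 2 ^ (19 / 10 : ℝ) * (y ^ (-(1 / 10) : ℝ) * y ^ 2) := by
      rw [Real.mul_rpow (by norm_num) hy0.le]
      congr 1
      rw [← Real.rpow_natCast y 2, ← Real.rpow_add hy0]
      norm_num
    have h4 : Real.log y / y ^ (1 / 10 : ℝ) = Real.log y * y ^ (-(1 / 10) : ℝ) := by
      rw [Real.rpow_neg hy0.le]; rfl
    rw [h3, h4]
    have h5 : y⁻¹ ^ 2 * y ^ 2 = 1 := by field_simp
    linear_combination (-C1) * h5
  rw [h2]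
  exact mul_le_mul_of_nonneg_right hy.le (by positivity)

theorem gLOW : G_LOW := by
  intro hT hDY B ε hε
  obtain ⟨C, Q0, hC, hD⟩ := hDY
  -- the threshold
  set C1 : ℝ := ∑ q ∈ (Icc 1 (2 ^ Q0)).filter SF6, CQ q with hC1
  have hev : ∀ᶠ K : ℝ in atTop,
      (C1 + C * (2 * Real.log K) ^ (19 / 10 : ℝ) * (4 + 2 * B * Real.log (Real.log K)) ≤
        ε * Real.log K ^ 2) ∧ (2 : ℝ) ^ Q0 ≤ K ∧ 3 ≤ K ∧
      B * Real.log (Real.log K) + 2 ≤ Real.log K := by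
    have h1 := Real.tendsto_log_atTop.eventually (low_lim C1 C B ε hε)
    have h2 : ∀ᶠ y : ℝ in atTop, B * Real.log y + 2 ≤ y := by
      have h3 : Tendsto (fun y : ℝ => B * (Real.log y / y ^ (1 : ℝ)) + 2 * y⁻¹) atTop
          (𝓝 (B * 0 + 2 * 0)) :=
        ((isLittleO_log_rpow_atTop one_pos).tendsto_div_nhds_zero.const_mul _).add
          (tendsto_inv_atTop_zero.const_mul 2)
      rw [show (B : ℝ) * 0 + 2 * 0 = 0 by ring] at h3
      filter_upwards [h3.eventually (gt_mem_nhds one_pos), eventually_gt_atTop 0] with y hy hy0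
      rw [Real.rpow_one] at hy
      have h4 : B * Real.log y + 2 = (B * (Real.log y / y) + 2 * y⁻¹) * y := by field_simp
      rw [h4]
      nlinarith
    have h3 := Real.tendsto_log_atTop.eventually h2
    filter_upwards [h1, h3, eventually_ge_atTop ((2 : ℝ) ^ Q0), eventually_ge_atTop 3] with K
      hK1 hK2 hK3 hK4
    exact ⟨hK1, hK3, hK4, hK2⟩
  obtain ⟨K0, hK0⟩ := eventually_atTop.mp hev
  refine ⟨K0, ?_⟩
  intro K hK
  obtain ⟨e1, e2, e3, e4⟩ := hK0 K hK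
  set y : ℝ := Real.log K with hy
  have hKpos : 0 < K := by linarith
  have hy1 : 1 ≤ y := by
    rw [hy, Real.le_log_iff_exp_le hKpos]
    have := Real.exp_one_lt_d9
    linarith
  have hly : 0 ≤ Real.log y := Real.log_nonneg hy1
  have hl2 : 0 < Real.log 2 := Real.log_pos (by norm_num)
  have hl2' : (1 / 2 : ℝ) ≤ Real.log 2 := by
    have := Real.log_two_gt_d9; linarith
  have hl2'' : Real.log 2 ≤ 1 := by
    have := Real.log_two_lt_d9; linarith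
  set r : ℝ := 1 - 1 / K with hr
  have hKinv : 0 < 1 / K := by positivity
  have hKinv1 : 1 / K ≤ 1 := by rw [div_le_one hKpos]; linarith
  have hr0 : 0 ≤ r := by rw [hr]; linarith
  have hr1 : r < 1 := by rw [hr]; linarith
  have hr2 : 1 - r = 1 / K := by rw [hr]; ring
  set j1 : ℕ := Nat.log 2 ⌊K⌋₊ with hj1
  have hfK : 1 ≤ ⌊K⌋₊ := Nat.le_floor (by push_cast; linarith)
  have hj1a : (2 : ℝ) ^ j1 ≤ K := by
    have h1 : 2 ^ j1 ≤ ⌊K⌋₊ := Nat.pow_log_le_self 2 (by omega)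
    have h2 : (⌊K⌋₊ : ℝ) ≤ K := Nat.floor_le hKpos.le
    have h3 : ((2 ^ j1 : ℕ) : ℝ) ≤ (⌊K⌋₊ : ℝ) := by exact_mod_cast h1
    push_cast at h3
    linarith
  have hj1b : K ≤ (2 : ℝ) ^ (j1 + 1) := by
    have h1 : ⌊K⌋₊ < 2 ^ (j1 + 1) := Nat.lt_pow_succ_log_self (by norm_num) _
    have h2 : K < (⌊K⌋₊ : ℝ) + 1 := Nat.lt_floor_add_one K
    have h3 : ((⌊K⌋₊ + 1 : ℕ) : ℝ) ≤ ((2 ^ (j1 + 1) : ℕ) : ℝ) := by exact_mod_cast h1
    push_cast at h3
    linarith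
  have hj0 : Q0 ≤ j1 := by
    have h1 : 2 ^ Q0 ≤ ⌊K⌋₊ := Nat.le_floor (by push_cast; exact e2)
    exact Nat.le_log_of_pow_le (by norm_num) h1
  set x : ℝ := B * Real.log y / Real.log 2 with hx
  have hx0 : 0 ≤ x := by positivity
  set L : ℕ := ⌈x⌉₊ + 1 with hL
  have hLx : (L : ℝ) ≤ x + 2 := by
    rw [hL]; push_cast
    have := (Nat.ceil_lt_add_one hx0).le
    linarith
  have hx2 : x ≤ 2 * B * Real.log y := by
    rw [hx, div_le_iff₀ hl2]
    have : 0 ≤ B * Real.log y := by positivity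
    nlinarith
  have hyB : y ^ B ≤ (2 : ℝ) ^ ⌈x⌉₊ := by
    have h1 : y ^ B = Real.exp (Real.log y * B) := by
      rw [← Real.rpow_natCast, Real.rpow_def_of_pos (by linarith)]
    have h2 : (2 : ℝ) ^ ⌈x⌉₊ = Real.exp (Real.log 2 * ⌈x⌉₊) := by
      rw [← Real.rpow_natCast, Real.rpow_def_of_pos (by norm_num)]
    rw [h1, h2]
    apply Real.exp_le_exp.mpr
    have h3 : x ≤ (⌈x⌉₊ : ℝ) := Nat.le_ceil x
    have h4 : Real.log 2 * x = B * Real.log y := by rw [hx]; field_simp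
    have h5 : Real.log 2 * x ≤ Real.log 2 * ⌈x⌉₊ := mul_le_mul_of_nonneg_left h3 hl2.le
    linarith
  set J : ℕ := j1 + L with hJ
  have hM : ⌊K * y ^ B⌋₊ ≤ 2 ^ J := by
    apply Nat.floor_le_of_le
    push_cast
    calc K * y ^ B ≤ (2 : ℝ) ^ (j1 + 1) * (2 : ℝ) ^ ⌈x⌉₊ :=
          mul_le_mul hj1b hyB (by positivity) (by positivity)
      _ = (2 : ℝ) ^ J := by rw [← pow_add, hJ, hL]; congr 1; ring
  have hJl : (J : ℝ) * Real.log 2 ≤ 2 * y := by
    rw [hJ]; push_cast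
    have h1 : (j1 : ℝ) * Real.log 2 ≤ y := by
      rw [hy, ← Real.log_pow]
      exact Real.log_le_log (by positivity) hj1a
    have h2 : (L : ℝ) * Real.log 2 ≤ (x + 2) * Real.log 2 := mul_le_mul_of_nonneg_right hLx hl2.le
    have h3 : x * Real.log 2 = B * Real.log y := by rw [hx]; field_simp
    nlinarith
  -- nonnegativity
  have hann : ∀ q ∈ (Icc 1 (2 ^ J)).filter SF6, 0 ≤ Pool.Agent.Helper22.TB.Ab r (sq q) := by
    intro q hq
    rw [mem_filter] at hq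
    exact (hT q r hq.2 hr0 hr1).1
  have hCQ : ∀ q, SF6 q → 0 ≤ CQ q := by
    intro q hq
    unfold CQ
    apply prod_nonneg
    intro p hp
    have hp2 := Nat.prime_of_mem_primeFactors hp
    positivity
  have hstep1 : ∑ q ∈ (Icc 1 ⌊K * y ^ B⌋₊).filter SF6, Pool.Agent.Helper22.TB.Ab r (sq q) ≤
      ∑ q ∈ (Icc 1 (2 ^ J)).filter SF6, Pool.Agent.Helper22.TB.Ab r (sq q) := by
    apply sum_le_sum_of_subset_of_nonneg
    · apply filter_subset_filter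
      exact Icc_subset_Icc le_rfl hM
    · intro q hq _
      exact hann q hq
  obtain ⟨n, hn⟩ : ∃ n, J = Q0 + n := ⟨J - Q0, by omega⟩
  have hsplit := low_split (fun q => Pool.Agent.Helper22.TB.Ab r (sq q)) Q0 n
  rw [← hn] at hsplit
  have hfirst : ∑ q ∈ (Icc 1 (2 ^ Q0)).filter SF6, Pool.Agent.Helper22.TB.Ab r (sq q) ≤ C1 := by
    rw [hC1]
    apply sum_le_sum
    intro q hq
    rw [mem_filter] at hq
    have h1 := (hT q r hq.2 hr0 hr1).2
    refine h1.trans ?_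
    have h2 : CQ q * min 1 (q * (1 - r)) ≤ CQ q * 1 :=
      mul_le_mul_of_nonneg_left (min_le_left _ _) (hCQ q hq.2)
    linarith
  have h2y : 0 ≤ (2 * y) ^ (19 / 10 : ℝ) := Real.rpow_nonneg (by linarith) _
  have hblock : ∀ j < J, Q0 ≤ j →
      ∑ q ∈ (Ioc (2 ^ j) (2 * 2 ^ j)).filter SF6, Pool.Agent.Helper22.TB.Ab r (sq q) ≤
      C * (2 * y) ^ (19 / 10 : ℝ) * min 1 (2 * 2 ^ j * (1 / K)) := by
    intro j hjJ hj
    have hQ : Q0 ≤ 2 ^ j := by
      have h1 : j < 2 ^ j := Nat.lt_two_pow_self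
      omega
    have h1 := hD (2 ^ j) hQ r hr0 hr1
    refine h1.trans ?_
    push_cast
    rw [hr2]
    have h2 : Real.log ((2 : ℝ) ^ j) ≤ 2 * y := by
      rw [Real.log_pow]
      have h3 : (j : ℝ) ≤ J := by exact_mod_cast hjJ.le
      have h4 : (j : ℝ) * Real.log 2 ≤ J * Real.log 2 := mul_le_mul_of_nonneg_right h3 hl2.le
      linarith
    have h3 : 0 ≤ Real.log ((2 : ℝ) ^ j) := by
      rw [Real.log_pow]; positivity
    have h4 : Real.log ((2 : ℝ) ^ j) ^ (19 / 10 : ℝ) ≤ (2 * y) ^ (19 / 10 : ℝ) :=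
      Real.rpow_le_rpow h3 h2 (by norm_num)
    have h5 : 0 ≤ min 1 (2 * (2 : ℝ) ^ j * (1 / K)) := le_min (by norm_num) (by positivity)
    exact mul_le_mul_of_nonneg_right (mul_le_mul_of_nonneg_left h4 hC.le) h5
  have hmin : ∑ j ∈ range J, min 1 (2 * (2 : ℝ) ^ j * (1 / K)) ≤ 2 + L := by
    rw [hJ, sum_range_add]
    have h1 : ∑ j ∈ range j1, min 1 (2 * (2 : ℝ) ^ j * (1 / K)) ≤ 2 := by
      calc ∑ j ∈ range j1, min 1 (2 * (2 : ℝ) ^ j * (1 / K))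
          ≤ ∑ j ∈ range j1, (2 : ℝ) ^ j * (2 * (1 / K)) := by
            apply sum_le_sum
            intro j _
            refine (min_le_right _ _).trans (le_of_eq ?_)
            ring
        _ = (∑ j ∈ range j1, (2 : ℝ) ^ j) * (2 * (1 / K)) := by rw [sum_mul]
        _ = (2 ^ j1 - 1) * (2 * (1 / K)) := by
            rw [geom_sum_eq (by norm_num)]; norm_num
        _ ≤ K * (2 * (1 / K)) := by
            apply mul_le_mul_of_nonneg_right _ (by positivity)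
            linarith
        _ = 2 := by field_simp
    have h2 : ∑ i ∈ range L, min 1 (2 * (2 : ℝ) ^ (j1 + i) * (1 / K)) ≤ L := by
      calc ∑ i ∈ range L, min 1 (2 * (2 : ℝ) ^ (j1 + i) * (1 / K)) ≤ ∑ i ∈ range L, (1 : ℝ) :=
            sum_le_sum fun i _ => min_le_left _ _
        _ = L := by simp
    linarith
  have hmid : ∑ i ∈ range n, ∑ q ∈ (Ioc (2 ^ (Q0 + i)) (2 * 2 ^ (Q0 + i))).filter SF6,
      Pool.Agent.Helper22.TB.Ab r (sq q) ≤ C * (2 * y) ^ (19 / 10 : ℝ) * (2 + L) := by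
    calc ∑ i ∈ range n, ∑ q ∈ (Ioc (2 ^ (Q0 + i)) (2 * 2 ^ (Q0 + i))).filter SF6,
        Pool.Agent.Helper22.TB.Ab r (sq q)
        ≤ ∑ i ∈ range n, C * (2 * y) ^ (19 / 10 : ℝ) * min 1 (2 * 2 ^ (Q0 + i) * (1 / K)) := by
          apply sum_le_sum
          intro i hi
          rw [mem_range] at hi
          exact hblock (Q0 + i) (by omega) (by omega)
      _ = C * (2 * y) ^ (19 / 10 : ℝ) * ∑ i ∈ range n, min 1 (2 * 2 ^ (Q0 + i) * (1 / K)) := by
          rw [mul_sum]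
      _ ≤ C * (2 * y) ^ (19 / 10 : ℝ) * (2 + L) := by
          apply mul_le_mul_of_nonneg_left _ (by positivity)
          refine le_trans ?_ hmin
          rw [hn, sum_range_add]
          have : 0 ≤ ∑ j ∈ range Q0, min 1 (2 * (2 : ℝ) ^ j * (1 / K)) :=
            sum_nonneg fun j _ => le_min (by norm_num) (by positivity)
          linarith
  have hfin : C1 + C * (2 * y) ^ (19 / 10 : ℝ) * (2 + L) ≤
      C1 + C * (2 * y) ^ (19 / 10 : ℝ) * (4 + 2 * B * Real.log y) := by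
    have : (2 : ℝ) + L ≤ 4 + 2 * B * Real.log y := by linarith
    have h := mul_le_mul_of_nonneg_left this (show 0 ≤ C * (2 * y) ^ (19 / 10 : ℝ) by positivity)
    linarith
  calc ∑ q ∈ (Icc 1 ⌊K * y ^ B⌋₊).filter SF6, Pool.Agent.Helper22.TB.Ab r (sq q) ≤ _ := hstep1
    _ = _ := hsplit
    _ ≤ C1 + C * (2 * y) ^ (19 / 10 : ℝ) * (2 + L) := add_le_add hfirst hmid
    _ ≤ _ := hfin
    _ ≤ _ := e1

end Pool.Agent.Helper6.TB
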