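import Pool.Agent.Helper22.TB.Goals

/-!
# Packet TB-OMG (MP_74f661_nt): moments of omega with exponential weights
-/

set_option autoImplicit false

open Finset Filter Topology
open Pool.Agent.Helper90.Twin (Ps Gz)
open scoped Classical

namespace Pool.Agent.Helper6.TB

open Pool.Agent.Helper22.TB

/-- number of multiples of a product of a set of primes -/
theorem omg_count (N : ℕ) (T : Finset ℕ) (hT : ∀ p ∈ T, p.Prime) :
    (((Icc 1 N).filter (fun n => T ⊆ n.primeFactors)).card : ℝ) ≤ N * ∏ p ∈ T, 1 / (p : ℝ) := by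
  have hdvd : ∀ n, T ⊆ n.primeFactors → (∏ p ∈ T, p) ∣ n := by
    intro n hn
    refine Finset.prod_primes_dvd _ (fun p hp => (hT p hp).prime) (fun p hp => ?_)
    exact Nat.dvd_of_mem_primeFactors (hn hp)
  have hpos : 0 < ∏ p ∈ T, p := prod_pos fun p hp => (hT p hp).pos
  have h1 : ((Icc 1 N).filter (fun n => T ⊆ n.primeFactors)).card ≤ N / (∏ p ∈ T, p) := by
    have h2 : (Icc 1 N).filter (fun n => T ⊆ n.primeFactors) ⊆
        (Ioc 0 N).filter (fun n => (∏ p ∈ T, p) ∣ n) := by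
      intro n hn
      rw [mem_filter, mem_Icc] at hn
      rw [mem_filter, mem_Ioc]
      exact ⟨⟨by omega, hn.1.2⟩, hdvd n hn.2⟩
    refine (card_le_card h2).trans (le_of_eq ?_)
    exact Nat.Ioc_filter_dvd_card_eq_div N _
  have h3 : ((N / (∏ p ∈ T, p) : ℕ) : ℝ) ≤ N / ((∏ p ∈ T, p : ℕ) : ℝ) := Nat.cast_div_le
  have h4 : (N : ℝ) / ((∏ p ∈ T, p : ℕ) : ℝ) = N * ∏ p ∈ T, 1 / (p : ℝ) := by
    rw [prod_div_distrib, prod_const_one, Nat.cast_prod]
    ring
  rw [← h4]
  exact le_trans (by exact_mod_cast h1) h3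

/-- the sum of `k ^ ω(n)` up to `N` -/
theorem omg_sum (N k : ℕ) (hk : 1 ≤ k) :
    ∑ n ∈ Icc 1 N, (k : ℝ) ^ n.primeFactors.card ≤
      N * ∏ p ∈ (Icc 1 N).filter Nat.Prime, (1 + ((k : ℝ) - 1) / p) := by
  have hk' : (0 : ℝ) ≤ (k : ℝ) - 1 := by
    have : (1 : ℝ) ≤ k := by exact_mod_cast hk
    linarith
  have h1 : ∀ n ∈ Icc 1 N, (k : ℝ) ^ n.primeFactors.card =
      ∑ T ∈ ((Icc 1 N).filter Nat.Prime).powerset,
        if T ⊆ n.primeFactors then ((k : ℝ) - 1) ^ T.card else 0 := by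
    intro n hn
    rw [mem_Icc] at hn
    rw [← sum_filter]
    have h2 : (((Icc 1 N).filter Nat.Prime).powerset).filter (fun T => T ⊆ n.primeFactors) =
        n.primeFactors.powerset := by
      ext T
      rw [mem_filter, mem_powerset, mem_powerset]
      constructor
      · exact fun h => h.2
      · intro h
        refine ⟨fun p hp => ?_, h⟩
        have hp' := h hp
        rw [Nat.mem_primeFactors] at hp'
        rw [mem_filter, mem_Icc]
        exact ⟨⟨hp'.1.one_lt.le, (Nat.le_of_dvd (by omega) hp'.2.1).trans hn.2⟩, hp'.1⟩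
    rw [h2]
    have h3 := Finset.sum_pow_mul_eq_add_pow ((k : ℝ) - 1) 1 n.primeFactors
    simp only [one_pow, mul_one] at h3
    rw [h3]
    congr 1
    ring
  rw [sum_congr rfl h1, sum_comm]
  have h4 : ∀ T ∈ ((Icc 1 N).filter Nat.Prime).powerset,
      ∑ n ∈ Icc 1 N, (if T ⊆ n.primeFactors then ((k : ℝ) - 1) ^ T.card else 0) ≤
        N * ∏ p ∈ T, ((k : ℝ) - 1) / p := by
    intro T hT
    rw [mem_powerset] at hT
    rw [← sum_filter, sum_const, nsmul_eq_mul]
    have h5 := omg_count N T (fun p hp => (mem_filter.1 (hT hp)).2)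
    have h6 : (N : ℝ) * ∏ p ∈ T, ((k : ℝ) - 1) / p =
        (N * ∏ p ∈ T, 1 / (p : ℝ)) * ((k : ℝ) - 1) ^ T.card := by
      rw [prod_div_distrib, prod_const, prod_div_distrib, prod_const_one]
      ring
    rw [h6]
    exact mul_le_mul_of_nonneg_right h5 (pow_nonneg hk' _)
  refine (sum_le_sum h4).trans (le_of_eq ?_)
  rw [← mul_sum, prod_one_add]

/-- the sum of `k ^ ω(n)` up to `N` for `N ≥ 3` -/
theorem omg_sum3 (N k : ℕ) (hk : 1 ≤ k) (hN : 3 ≤ N) :
    ∑ n ∈ Icc 1 N, (k : ℝ) ^ n.primeFactors.card ≤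
      N * ((1 + ((k : ℝ) - 1) / 2) * (1 + ((k : ℝ) - 1) / 3) *
        ∏ p ∈ Ps N, (1 + ((k : ℝ) - 1) / p)) := by
  refine (omg_sum N k hk).trans (le_of_eq ?_)
  congr 1
  have h1 : (Icc 1 N).filter Nat.Prime = {2, 3} ∪ Ps N := by
    ext p
    rw [mem_union, Pool.Agent.Helper90.Twin.mem_Ps, mem_filter, mem_Icc, mem_insert, mem_singleton]
    constructor
    · rintro ⟨⟨h1, h2⟩, h3⟩
      by_cases h5 : 5 ≤ p
      · exact Or.inr ⟨h5, h2, h3⟩
      · left
        have h4 : p ≠ 4 := by rintro rfl; norm_num at h3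
        have := h3.two_le
        omega
    · rintro ((rfl | rfl) | ⟨h1, h2, h3⟩)
      · exact ⟨⟨by omega, by omega⟩, Nat.prime_two⟩
      · exact ⟨⟨by omega, by omega⟩, Nat.prime_three⟩
      · exact ⟨⟨by omega, h2⟩, h3⟩
  rw [h1, prod_union, prod_pair (by norm_num)]
  · norm_num
  · rw [disjoint_left]
    intro p hp hp2
    rw [Pool.Agent.Helper90.Twin.mem_Ps] at hp2
    rw [mem_insert, mem_singleton] at hp
    omega

theorem omg_summable (k : ℕ) : Summable (fun j : ℕ => Real.exp (-(j : ℝ)) * ((j : ℝ) + 1) ^ (k + 1)) := by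
  have h1 := Real.summable_pow_mul_exp_neg_nat_mul (k + 1) (r := 1) one_pos
  have h2 := (summable_nat_add_iff 1).2 h1
  have h3 := h2.mul_left (Real.exp 1)
  refine h3.congr fun j => ?_
  have h4 : Real.exp (-(j : ℝ)) = Real.exp 1 * Real.exp (-1 * ((j + 1 : ℕ) : ℝ)) := by
    rw [← Real.exp_add]
    congr 1
    push_cast
    ring
  rw [h4]
  push_cast
  ring

theorem gOMG : G_OMG := by
  intro hMP k hk
  obtain ⟨C, hC, hC2⟩ := hMP.2.1 ((k : ℝ) - 1) (by
    have : (1 : ℝ) ≤ k := by exact_mod_cast hk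
    linarith)
  have hk1 : (1 : ℝ) ≤ k := by exact_mod_cast hk
  have hk' : (0 : ℝ) ≤ (k : ℝ) - 1 := by linarith
  set D : ℝ := (1 + ((k : ℝ) - 1) / 2) * (1 + ((k : ℝ) - 1) / 3) with hD
  have hD0 : 0 < D := by positivity
  set E : ℝ := ∑' j : ℕ, Real.exp (-(j : ℝ)) * ((j : ℝ) + 1) ^ (k + 1) with hE
  have hEs := omg_summable k
  have hE0 : 0 ≤ E := tsum_nonneg fun j => by positivity
  refine ⟨D * C * (E + 1), by positivity, ?_⟩
  intro K hK N
  have hK0 : 0 < K := by linarith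
  have hlogK : 1 ≤ Real.log K := by
    rw [Real.le_log_iff_exp_le hK0]
    have := Real.exp_one_lt_d9
    linarith
  -- the exponential weights
  have hw : ∀ n ∈ Icc 1 N, (1 - 1 / K) ^ n * (k : ℝ) ^ n.primeFactors.card ≤
      ∑ j ∈ range (N + 1), if (n : ℝ) < (j + 1) * K then
        Real.exp (-(j : ℝ)) * (k : ℝ) ^ n.primeFactors.card else 0 := by
    intro n hn
    rw [mem_Icc] at hn
    set j := ⌊(n : ℝ) / K⌋₊ with hj
    have hj1 : (j : ℝ) ≤ n / K := Nat.floor_le (by positivity)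
    have hj2 : (n : ℝ) / K < j + 1 := Nat.lt_floor_add_one _
    have hjN : j < N + 1 := by
      have : (j : ℝ) ≤ N := by
        refine hj1.trans ?_
        rw [div_le_iff₀ hK0]
        have h1 : (n : ℝ) ≤ N := by exact_mod_cast hn.2
        have h2 : (0 : ℝ) ≤ N := by positivity
        nlinarith
      have : j ≤ N := by exact_mod_cast this
      omega
    have hn2 : (n : ℝ) < (j + 1) * K := by rwa [div_lt_iff₀ hK0] at hj2
    have h1 : (1 - 1 / K) ^ n ≤ Real.exp (-(j : ℝ)) := by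
      have h2 : 1 - 1 / K ≤ Real.exp (-(1 / K)) := by
        have := Real.add_one_le_exp (-(1 / K))
        linarith
      have h3 : 0 ≤ 1 - 1 / K := by
        rw [sub_nonneg, div_le_one hK0]
        linarith
      calc (1 - 1 / K) ^ n ≤ Real.exp (-(1 / K)) ^ n := pow_le_pow_left₀ h3 h2 n
        _ = Real.exp (-(n / K)) := by
            rw [← Real.exp_nat_mul]
            congr 1
            ring
        _ ≤ Real.exp (-(j : ℝ)) := Real.exp_le_exp.2 (neg_le_neg hj1)
    calc (1 - 1 / K) ^ n * (k : ℝ) ^ n.primeFactors.card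
        ≤ Real.exp (-(j : ℝ)) * (k : ℝ) ^ n.primeFactors.card :=
          mul_le_mul_of_nonneg_right h1 (by positivity)
      _ = if (n : ℝ) < ((j : ℕ) + 1) * K then
        Real.exp (-((j : ℕ) : ℝ)) * (k : ℝ) ^ n.primeFactors.card else 0 := by rw [if_pos hn2]
      _ ≤ _ := by
          refine single_le_sum (f := fun j : ℕ => if (n : ℝ) < (j + 1) * K then
            Real.exp (-(j : ℝ)) * (k : ℝ) ^ n.primeFactors.card else 0) ?_ (mem_range.2 hjN)
          intro i _
          split_ifs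
          · positivity
          · exact le_rfl
  refine (sum_le_sum hw).trans ?_
  rw [sum_comm]
  have hj : ∀ j ∈ range (N + 1), ∑ n ∈ Icc 1 N, (if (n : ℝ) < (j + 1) * K then
        Real.exp (-(j : ℝ)) * (k : ℝ) ^ n.primeFactors.card else 0) ≤
      (D * C * K * Real.log K ^ k) * (Real.exp (-(j : ℝ)) * ((j : ℝ) + 1) ^ (k + 1)) := by
    intro j _
    rw [← sum_filter, ← mul_sum]
    set M := ⌊((j : ℝ) + 1) * K⌋₊ with hM
    have hM1 : (M : ℝ) ≤ (j + 1) * K := Nat.floor_le (by positivity)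
    have hM3 : 3 ≤ M := by
      rw [hM]
      refine Nat.le_floor ?_
      push_cast
      have : (0 : ℝ) ≤ j := by positivity
      nlinarith
    have h1 : ∑ n ∈ (Icc 1 N).filter (fun n : ℕ => (n : ℝ) < (j + 1) * K),
        (k : ℝ) ^ n.primeFactors.card ≤ ∑ n ∈ Icc 1 M, (k : ℝ) ^ n.primeFactors.card := by
      refine sum_le_sum_of_subset_of_nonneg ?_ fun _ _ _ => by positivity
      intro n hn
      rw [mem_filter, mem_Icc] at hn
      rw [mem_Icc]
      exact ⟨hn.1.1, Nat.le_floor hn.2.le⟩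
    have h2 := omg_sum3 M k hk hM3
    have h3 := hC2 M hM3
    have hMr : (3 : ℝ) ≤ M := by exact_mod_cast hM3
    have hlM0 : 0 ≤ Real.log M := Real.log_nonneg (by linarith)
    have hj0 : (0 : ℝ) ≤ j := by positivity
    have hlM : Real.log M ≤ (j + 1) * Real.log K := by
      have h4 : Real.log M ≤ Real.log ((j + 1) * K) := Real.log_le_log (by linarith) hM1
      rw [Real.log_mul (by positivity) (by positivity)] at h4
      have h5 : Real.log ((j : ℝ) + 1) ≤ j := by
        have := Real.log_le_sub_one_of_pos (show (0 : ℝ) < j + 1 by positivity)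
        linarith
      nlinarith
    have h6 : Real.log M ^ ((k : ℝ) - 1) ≤ ((j + 1) * Real.log K) ^ k := by
      have h7 : (1 : ℝ) ≤ (j + 1) * Real.log K := by nlinarith
      calc Real.log M ^ ((k : ℝ) - 1) ≤ ((j + 1) * Real.log K) ^ ((k : ℝ) - 1) :=
            Real.rpow_le_rpow hlM0 hlM hk'
        _ ≤ ((j + 1) * Real.log K) ^ (k : ℝ) :=
            Real.rpow_le_rpow_of_exponent_le h7 (by linarith)
        _ = _ := Real.rpow_natCast _ _
    have h8 : ∑ n ∈ Icc 1 M, (k : ℝ) ^ n.primeFactors.card ≤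
        ((j + 1) * K) * (D * (C * ((j + 1) * Real.log K) ^ k)) := by
      refine h2.trans ?_
      have h9 : ∏ p ∈ Ps M, (1 + ((k : ℝ) - 1) / p) ≤ C * ((j + 1) * Real.log K) ^ k :=
        h3.trans (mul_le_mul_of_nonneg_left h6 hC.le)
      have h10 : D * ∏ p ∈ Ps M, (1 + ((k : ℝ) - 1) / p) ≤
          D * (C * ((j + 1) * Real.log K) ^ k) := mul_le_mul_of_nonneg_left h9 hD0.le
      have h11 : 0 ≤ ∏ p ∈ Ps M, (1 + ((k : ℝ) - 1) / p) :=
        prod_nonneg fun p _ => by positivity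
      exact mul_le_mul hM1 h10 (by positivity) (by positivity)
    calc Real.exp (-(j : ℝ)) * ∑ n ∈ (Icc 1 N).filter (fun n : ℕ => (n : ℝ) < (j + 1) * K),
        (k : ℝ) ^ n.primeFactors.card
        ≤ Real.exp (-(j : ℝ)) * (((j + 1) * K) * (D * (C * ((j + 1) * Real.log K) ^ k))) :=
          mul_le_mul_of_nonneg_left (h1.trans h8) (Real.exp_pos _).le
      _ = _ := by
          rw [mul_pow, pow_succ]
          ring
  refine (sum_le_sum hj).trans ?_
  rw [← mul_sum]
  have hfin : ∑ j ∈ range (N + 1), Real.exp (-(j : ℝ)) * ((j : ℝ) + 1) ^ (k + 1) ≤ E :=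
    hEs.sum_le_tsum _ fun j _ => by positivity
  have hpos : 0 ≤ D * C * K * Real.log K ^ k := by positivity
  calc _ ≤ (D * C * K * Real.log K ^ k) * E := mul_le_mul_of_nonneg_left hfin hpos
    _ ≤ (D * C * K * Real.log K ^ k) * (E + 1) := mul_le_mul_of_nonneg_left (by linarith) hpos
    _ = _ := by ring

end Pool.Agent.Helper6.TB
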