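import Pool.Agent.Helper22.TB.Goals

/-!
# Packet TB-TAU (MP_74f661_nt): the mean value of `τ(m)/m`
-/

set_option autoImplicit false

open Finset Filter Topology

namespace Pool.Agent.Helper6.TB

open Pool.Agent.Helper22.TB

/-- harmonic sums -/
noncomputable def Hs (n : ℕ) : ℝ := ∑ b ∈ Icc 1 n, (1 : ℝ) / b

theorem Hs_eq (n : ℕ) : Hs n = ((harmonic n : ℚ) : ℝ) := by
  unfold Hs
  rw [harmonic_eq_sum_Icc]
  push_cast
  simp only [one_div]

theorem Hs_nonneg (n : ℕ) : 0 ≤ Hs n := sum_nonneg fun b _ => by positivity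

theorem Hs_le (n : ℕ) : Hs n ≤ 1 + Real.log n := by
  rw [Hs_eq]; exact harmonic_le_one_add_log n

theorem le_Hs (n : ℕ) : Real.log ((n : ℝ) + 1) ≤ Hs n := by
  rw [Hs_eq]
  have := log_add_one_le_harmonic n
  push_cast at this
  exact this

/-- the sum -/
noncomputable def Ts (n : ℕ) : ℝ := ∑ m ∈ Icc 1 n, (m.divisors.card : ℝ) / m

theorem Ts_eq (n : ℕ) : Ts n = ∑ a ∈ Icc 1 n, (1 / (a : ℝ)) * Hs (n / a) := by
  unfold Ts Hs
  have h1 : ∀ m ∈ Icc 1 n, (m.divisors.card : ℝ) / m =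
      ∑ x ∈ m.divisorsAntidiagonal, (1 / (x.1 : ℝ)) * (1 / (x.2 : ℝ)) := by
    intro m hm
    have h2 : ∀ x ∈ m.divisorsAntidiagonal, (1 / (x.1 : ℝ)) * (1 / (x.2 : ℝ)) = 1 / m := by
      intro x hx
      rw [Nat.mem_divisorsAntidiagonal] at hx
      rw [div_mul_div_comm, one_mul, ← hx.1]
      push_cast
      rfl
    rw [sum_congr rfl h2, sum_const, nsmul_eq_mul, ← Nat.map_div_right_divisors, card_map]
    ring
  rw [sum_congr rfl h1]
  simp_rw [mul_sum]
  rw [sum_sigma', sum_sigma']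
  refine sum_nbij' (fun z => ⟨z.2.1, z.2.2⟩) (fun z => ⟨z.1 * z.2, (z.1, z.2)⟩) ?_ ?_ ?_ ?_ ?_
  · rintro ⟨m, a, b⟩ h
    simp only [mem_sigma, mem_Icc, Nat.mem_divisorsAntidiagonal] at h ⊢
    obtain ⟨⟨h1, h2⟩, h3, h4⟩ := h
    have ha : 1 ≤ a := by
      rcases Nat.eq_zero_or_pos a with h | h
      · subst h; simp at h3; omega
      · exact h
    have hb : 1 ≤ b := by
      rcases Nat.eq_zero_or_pos b with h | h
      · subst h; simp at h3; omega
      · exact h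
    have hab : a * b ≤ n := by omega
    refine ⟨⟨ha, le_trans (Nat.le_mul_of_pos_right a hb) hab⟩, hb, ?_⟩
    rw [Nat.le_div_iff_mul_le ha, mul_comm]
    exact hab
  · rintro ⟨a, b⟩ h
    simp only [mem_sigma, mem_Icc, Nat.mem_divisorsAntidiagonal] at h ⊢
    obtain ⟨⟨h1, h2⟩, h3, h4⟩ := h
    rw [Nat.le_div_iff_mul_le h1, mul_comm] at h4
    have : 1 ≤ a * b := Nat.mul_pos h1 h3
    refine ⟨⟨this, h4⟩, trivial, by omega⟩
  · rintro ⟨m, a, b⟩ h
    simp only [mem_sigma, mem_Icc, Nat.mem_divisorsAntidiagonal] at h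
    obtain ⟨_, h3, _⟩ := h
    simp [h3]
  · rintro ⟨a, b⟩ _
    rfl
  · rintro ⟨m, a, b⟩ _
    rfl

theorem Ts_nonneg (n : ℕ) : 0 ≤ Ts n := sum_nonneg fun b _ => by positivity

theorem log_nat_mono {a b : ℕ} (ha : 1 ≤ a) (hab : a ≤ b) :
    Real.log (a : ℝ) ≤ Real.log (b : ℝ) := by
  apply Real.log_le_log
  · exact_mod_cast ha
  · exact_mod_cast hab

theorem Ts_le (n : ℕ) (_hn : 1 ≤ n) : Ts n ≤ (1 + Real.log n) ^ 2 := by
  rw [Ts_eq]
  have hl : 0 ≤ Real.log (n : ℝ) := Real.log_natCast_nonneg n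
  calc ∑ a ∈ Icc 1 n, (1 / (a : ℝ)) * Hs (n / a)
      ≤ ∑ a ∈ Icc 1 n, (1 / (a : ℝ)) * (1 + Real.log n) := by
        apply sum_le_sum
        intro a ha
        rw [mem_Icc] at ha
        apply mul_le_mul_of_nonneg_left _ (by positivity)
        refine (Hs_le _).trans ?_
        have : Real.log ((n / a : ℕ) : ℝ) ≤ Real.log n :=
          log_nat_mono (Nat.div_pos ha.2 ha.1) (Nat.div_le_self n a)
        linarith
    _ = Hs n * (1 + Real.log n) := by
        unfold Hs; rw [sum_mul]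
    _ ≤ (1 + Real.log n) * (1 + Real.log n) := by
        apply mul_le_mul_of_nonneg_right (Hs_le n) (by linarith)
    _ = (1 + Real.log n) ^ 2 := by ring

/-- `|H(n/a) - log (n/a)| ≤ 1` -/
theorem Hs_div (n a : ℕ) (ha : 1 ≤ a) (han : a ≤ n) :
    |Hs (n / a) - (Real.log n - Real.log a)| ≤ 1 := by
  have ha0 : (0 : ℝ) < a := by exact_mod_cast ha
  have hn0 : (0 : ℝ) < n := by exact_mod_cast (lt_of_lt_of_le ha han)
  have hk1 : 1 ≤ n / a := Nat.div_pos han ha
  have hk0 : (0 : ℝ) < ((n / a : ℕ) : ℝ) := by exact_mod_cast hk1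
  have h1 : ((n / a : ℕ) : ℝ) ≤ (n : ℝ) / a := Nat.cast_div_le
  have h2 : (n : ℝ) / a ≤ ((n / a : ℕ) : ℝ) + 1 := by
    rw [div_le_iff₀ ha0]
    have h3 : n ≤ (n / a + 1) * a := by
      have := Nat.div_add_mod n a
      have h4 := Nat.mod_lt n ha
      have h5 : (n / a + 1) * a = a * (n / a) + a := by ring
      omega
    exact_mod_cast h3
  have hlog : Real.log n - Real.log a = Real.log ((n : ℝ) / a) := by
    rw [Real.log_div hn0.ne' ha0.ne']
  rw [hlog, abs_le]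
  constructor
  · have h4 := le_Hs (n / a)
    have h5 : Real.log ((n : ℝ) / a) ≤ Real.log (((n / a : ℕ) : ℝ) + 1) :=
      Real.log_le_log (by positivity) h2
    linarith
  · have h4 := Hs_le (n / a)
    have h5 : Real.log ((n / a : ℕ) : ℝ) ≤ Real.log ((n : ℝ) / a) := Real.log_le_log hk0 h1
    linarith

/-- one step of the comparison of `∑ log a / a` with `log^2 / 2` -/
theorem logstep (a : ℕ) (ha : 1 ≤ a) :
    |Real.log ((a + 1 : ℕ) : ℝ) / ((a + 1 : ℕ) : ℝ) -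
      (Real.log ((a + 1 : ℕ) : ℝ) ^ 2 - Real.log a ^ 2) / 2| ≤
      (1 + Real.log ((a + 1 : ℕ) : ℝ)) * (1 / (a : ℝ) - 1 / ((a + 1 : ℕ) : ℝ)) := by
  have ha0 : (0 : ℝ) < a := by exact_mod_cast ha
  have hcast : ((a + 1 : ℕ) : ℝ) = (a : ℝ) + 1 := by push_cast; rfl
  rw [hcast]
  set x : ℝ := (a : ℝ) with hx
  set u := Real.log x with hu
  set v := Real.log (x + 1) with hv
  have hx1 : (1 : ℝ) ≤ x := by rw [hx]; exact_mod_cast ha
  have hu0 : 0 ≤ u := Real.log_nonneg hx1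
  have hd1 : v - u ≤ 1 / x := by
    have h1 : v - u = Real.log ((x + 1) / x) := by
      rw [Real.log_div (by positivity) ha0.ne']
    have h2 := Real.log_le_sub_one_of_pos (show 0 < (x + 1) / x by positivity)
    have h3 : (x + 1) / x - 1 = 1 / x := by field_simp; ring
    rw [h1]; linarith
  have hd2 : 1 / (x + 1) ≤ v - u := by
    have h1 : u - v = Real.log (x / (x + 1)) := by
      rw [Real.log_div ha0.ne' (by positivity)]
    have h2 := Real.log_le_sub_one_of_pos (show 0 < x / (x + 1) by positivity)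
    have h3 : x / (x + 1) - 1 = -(1 / (x + 1)) := by field_simp; ring
    linarith
  have huv : u ≤ v := by
    have : 0 < 1 / (x + 1) := by positivity
    linarith
  have hv0 : 0 ≤ v := hu0.trans huv
  have hfac : (v ^ 2 - u ^ 2) / 2 = (v - u) * ((v + u) / 2) := by ring
  have hlow : (1 / (x + 1)) * ((v + u) / 2) ≤ (v ^ 2 - u ^ 2) / 2 := by
    rw [hfac]; exact mul_le_mul_of_nonneg_right hd2 (by linarith)
  have hupp : (v ^ 2 - u ^ 2) / 2 ≤ (1 / x) * ((v + u) / 2) := by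
    rw [hfac]; exact mul_le_mul_of_nonneg_right hd1 (by linarith)
  have hE : 0 ≤ 1 / x - 1 / (x + 1) := by
    rw [sub_nonneg]; exact one_div_le_one_div_of_le ha0 (by linarith)
  have hEq : 1 / x - 1 / (x + 1) = (1 / x) * (1 / (x + 1)) := by field_simp; ring
  have hdiv : v / (x + 1) = (1 / (x + 1)) * v := by ring
  rw [hdiv, abs_le]
  constructor
  · -- lower bound
    have h1 : (1 / x) * ((v + u) / 2) ≤ (1 / x) * v :=
      mul_le_mul_of_nonneg_left (by linarith) (by positivity)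
    nlinarith
  · have h1 : (1 / (x + 1)) * v - (1 / (x + 1)) * ((v + u) / 2) = (1 / (x + 1)) * ((v - u) / 2) := by
      ring
    have h2 : (1 / (x + 1)) * ((v - u) / 2) ≤ (1 / (x + 1)) * (1 / x) := by
      apply mul_le_mul_of_nonneg_left _ (by positivity)
      have : 0 < 1 / x := by positivity
      linarith
    have h3 : (1 / (x + 1)) * (1 / x) ≤ (1 + v) * (1 / x - 1 / (x + 1)) := by
      rw [hEq]
      have : 0 ≤ v * ((1 / x) * (1 / (x + 1))) := by positivity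
      nlinarith
    linarith

theorem logsum (n : ℕ) (hn : 1 ≤ n) :
    |∑ a ∈ Icc 1 n, Real.log a / a - Real.log n ^ 2 / 2| ≤ (1 + Real.log n) * (1 - 1 / (n : ℝ)) := by
  induction n, hn using Nat.le_induction with
  | base => simp
  | succ n hn ih =>
    rw [sum_Icc_succ_top (by omega)]
    have h := logstep n hn
    have hmono : Real.log (n : ℝ) ≤ Real.log ((n + 1 : ℕ) : ℝ) := log_nat_mono hn (by omega)
    have hn0 : (0 : ℝ) < n := by exact_mod_cast hn
    have hn1 : (1 : ℝ) ≤ n := by exact_mod_cast hn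
    have h1 : 0 ≤ 1 - 1 / (n : ℝ) := by
      rw [sub_nonneg, div_le_one hn0]; exact hn1
    have h2 : (1 + Real.log n) * (1 - 1 / (n : ℝ)) ≤
        (1 + Real.log ((n + 1 : ℕ) : ℝ)) * (1 - 1 / (n : ℝ)) :=
      mul_le_mul_of_nonneg_right (by linarith) h1
    have h3 : ∑ a ∈ Icc 1 n, Real.log a / a + Real.log ((n + 1 : ℕ) : ℝ) / ((n + 1 : ℕ) : ℝ) -
        Real.log ((n + 1 : ℕ) : ℝ) ^ 2 / 2 =
        (∑ a ∈ Icc 1 n, Real.log a / a - Real.log n ^ 2 / 2) +
        (Real.log ((n + 1 : ℕ) : ℝ) / ((n + 1 : ℕ) : ℝ) -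
          (Real.log ((n + 1 : ℕ) : ℝ) ^ 2 - Real.log n ^ 2) / 2) := by ring
    rw [h3]
    refine (abs_add_le _ _).trans ?_
    refine (add_le_add (ih.trans h2) h).trans (le_of_eq ?_)
    ring

theorem Ts_asymp (n : ℕ) (hn : 1 ≤ n) : |Ts n - Real.log n ^ 2 / 2| ≤ 3 * (1 + Real.log n) := by
  have hl : 0 ≤ Real.log (n : ℝ) := Real.log_natCast_nonneg n
  have hn0 : (0 : ℝ) < n := by exact_mod_cast hn
  have h1 : |Ts n - ∑ a ∈ Icc 1 n, (1 / (a : ℝ)) * (Real.log n - Real.log a)| ≤ Hs n := by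
    rw [Ts_eq, ← sum_sub_distrib]
    refine (abs_sum_le_sum_abs _ _).trans ?_
    unfold Hs
    apply sum_le_sum
    intro a ha
    rw [mem_Icc] at ha
    have h2 := Hs_div n a ha.1 ha.2
    have ha0 : (0 : ℝ) < 1 / (a : ℝ) := by
      have : (0 : ℝ) < a := by exact_mod_cast ha.1
      positivity
    rw [← mul_sub, abs_mul, abs_of_pos ha0]
    calc 1 / (a : ℝ) * |Hs (n / a) - (Real.log n - Real.log a)| ≤ 1 / (a : ℝ) * 1 :=
          mul_le_mul_of_nonneg_left h2 ha0.le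
      _ = 1 / (a : ℝ) := mul_one _
  have h3 : ∑ a ∈ Icc 1 n, (1 / (a : ℝ)) * (Real.log n - Real.log a) =
      Hs n * Real.log n - ∑ a ∈ Icc 1 n, Real.log a / a := by
    unfold Hs
    rw [sum_mul, ← sum_sub_distrib]
    refine sum_congr rfl fun a _ => ?_
    ring
  have h4 := logsum n hn
  have h5 : (1 + Real.log n) * (1 - 1 / (n : ℝ)) ≤ 1 + Real.log n := by
    have : 0 < 1 / (n : ℝ) := by positivity
    nlinarith
  have h6 : |Hs n - Real.log n| ≤ 1 := by
    have h7 := Hs_le n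
    have h8 := le_Hs n
    have h9 : Real.log (n : ℝ) ≤ Real.log ((n : ℝ) + 1) := Real.log_le_log hn0 (by linarith)
    rw [abs_le]; constructor <;> linarith
  have h7 : |Hs n * Real.log n - Real.log n ^ 2| ≤ Real.log n := by
    have : Hs n * Real.log n - Real.log n ^ 2 = (Hs n - Real.log n) * Real.log n := by ring
    rw [this, abs_mul, abs_of_nonneg hl]
    nlinarith
  have h8 := Hs_le n
  rw [h3] at h1
  rw [abs_le] at h1 h4 h7 ⊢
  constructor
  · linarith [h1.1, h4.1, h4.2, h7.1]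
  · linarith [h1.2, h4.1, h4.2, h7.2]

theorem gTAU : G_TAU := by
  have hfloor : ∀ x : ℝ, 1 ≤ x → 1 ≤ ⌊x⌋₊ ∧ Real.log (⌊x⌋₊ : ℝ) ≤ Real.log x ∧
      Real.log x ≤ Real.log (⌊x⌋₊ : ℝ) + 1 := by
    intro x hx
    have h1 : 1 ≤ ⌊x⌋₊ := Nat.le_floor (by exact_mod_cast hx)
    have h1' : (1 : ℝ) ≤ (⌊x⌋₊ : ℝ) := by exact_mod_cast h1
    have h2 : (⌊x⌋₊ : ℝ) ≤ x := Nat.floor_le (by linarith)
    have h3 : x < (⌊x⌋₊ : ℝ) + 1 := Nat.lt_floor_add_one x
    refine ⟨h1, Real.log_le_log (by linarith) h2, ?_⟩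
    have h4 : Real.log x - Real.log (⌊x⌋₊ : ℝ) = Real.log (x / (⌊x⌋₊ : ℝ)) := by
      rw [Real.log_div (by linarith) (by linarith)]
    have h5 := Real.log_le_sub_one_of_pos (show 0 < x / (⌊x⌋₊ : ℝ) by positivity)
    have h6 : x / (⌊x⌋₊ : ℝ) ≤ 2 := by
      rw [div_le_iff₀ (by linarith)]; linarith
    linarith
  constructor
  · have hb : ∀ x : ℝ, 1 ≤ x → |Ts ⌊x⌋₊ - Real.log x ^ 2 / 2| ≤ 4 * (1 + Real.log x) := by
      intro x hx
      obtain ⟨h1, h2, h3⟩ := hfloor x hx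
      have h4 := Ts_asymp ⌊x⌋₊ h1
      have hl0 : 0 ≤ Real.log (⌊x⌋₊ : ℝ) := Real.log_natCast_nonneg _
      have h5 : |Real.log (⌊x⌋₊ : ℝ) ^ 2 / 2 - Real.log x ^ 2 / 2| ≤ Real.log x := by
        rw [abs_le]
        constructor
        · nlinarith
        · nlinarith
      have h6 : Ts ⌊x⌋₊ - Real.log x ^ 2 / 2 = (Ts ⌊x⌋₊ - Real.log (⌊x⌋₊ : ℝ) ^ 2 / 2) +
          (Real.log (⌊x⌋₊ : ℝ) ^ 2 / 2 - Real.log x ^ 2 / 2) := by ring
      rw [h6]
      refine (abs_add_le _ _).trans ?_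
      linarith
    have hlim : Tendsto (fun x : ℝ => 4 * (1 + Real.log x) / Real.log x ^ 2) atTop (𝓝 0) := by
      have h1 : Tendsto (fun y : ℝ => 4 * (1 + y) / y ^ 2) atTop (𝓝 0) := by
        have h2 : Tendsto (fun y : ℝ => 4 * (y⁻¹ ^ 2 + y⁻¹)) atTop (𝓝 (4 * (0 ^ 2 + 0))) :=
          ((tendsto_inv_atTop_zero.pow 2).add tendsto_inv_atTop_zero).const_mul 4
        rw [show (4 : ℝ) * (0 ^ 2 + 0) = 0 by norm_num] at h2
        refine h2.congr' ?_
        filter_upwards [eventually_gt_atTop 0] with y hy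
        field_simp
      exact h1.comp Real.tendsto_log_atTop
    have hlim2 : Tendsto (fun x : ℝ => Ts ⌊x⌋₊ / Real.log x ^ 2 - 1 / 2) atTop (𝓝 0) := by
      refine squeeze_zero_norm' ?_ hlim
      filter_upwards [eventually_gt_atTop (Real.exp 1)] with x hx
      have hx1 : 1 ≤ x := by
        have := Real.add_one_le_exp 1
        linarith
      have hlx : 1 < Real.log x := by
        rw [Real.lt_log_iff_exp_lt (by linarith)]; exact hx
      have hl2 : 0 < Real.log x ^ 2 := by positivity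
      have h2 : Ts ⌊x⌋₊ / Real.log x ^ 2 - 1 / 2 =
          (Ts ⌊x⌋₊ - Real.log x ^ 2 / 2) / Real.log x ^ 2 := by
        field_simp
      rw [h2, Real.norm_eq_abs, abs_div, abs_of_pos hl2]
      exact div_le_div_of_nonneg_right (hb x hx1) hl2.le
    have hlim3 := hlim2.add_const (1 / 2)
    simp only [sub_add_cancel, zero_add] at hlim3
    exact hlim3
  · refine ⟨1, one_pos, ?_⟩
    intro x hx
    obtain ⟨h1, h2, _⟩ := hfloor x hx
    have hl0 : 0 ≤ Real.log (⌊x⌋₊ : ℝ) := Real.log_natCast_nonneg _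
    have h3 := Ts_le ⌊x⌋₊ h1
    rw [one_mul]
    refine le_trans h3 ?_
    exact pow_le_pow_left₀ (by linarith) (by linarith) 2

end Pool.Agent.Helper6.TB
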