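import Pool.Agent.Helper33.TB.Goals

/-!
# Packet TB-TL (MP_74f661_nt): long gaps from concentration
-/

set_option autoImplicit false

open Finset

namespace Pool.Agent.Helper6.TB

open Pool.Agent.Helper33.TB

open Classical in
/-- the indicator of the bad positions -/
noncomputable def bad (Q : ℕ) (X : ℤ → ℝ) (b : ℕ) (t : ℤ) : ℝ :=
  if 1 / 2 * (Av Q X * b) < |Nb X b t - Av Q X * b| then 1 else 0

theorem bad_nonneg (Q : ℕ) (X : ℤ → ℝ) (b : ℕ) (t : ℤ) : 0 ≤ bad Q X b t := by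
  unfold bad; split_ifs <;> norm_num

theorem sum_blocks (f : ℕ → ℝ) (b k : ℕ) :
    ∑ j ∈ range k, ∑ i ∈ range b, f (j * b + i) = ∑ m ∈ range (k * b), f m := by
  induction k with
  | zero => simp
  | succ k ih =>
    rw [sum_range_succ, ih, Nat.succ_mul, sum_range_add]

theorem Pc_nonneg_le {X : ℤ → ℝ} (h01 : ∀ t, X t = 0 ∨ X t = 1) {τ : ℝ} (h0 : 0 ≤ τ)
    (h1 : τ ≤ 1) (H : ℕ) (t : ℤ) :
    0 ≤ Pc X τ H t ∧ Pc X τ H t ≤ Real.exp (-(τ * ∑ m ∈ range H, X (t + ((m + 1 : ℕ) : ℤ)))) ∧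
      Pc X τ H t ≤ 1 := by
  induction H with
  | zero => simp [Pc]
  | succ H ih =>
    obtain ⟨i0, i1, i2⟩ := ih
    have hs : Pc X τ (H + 1) t = Pc X τ H t * (1 - τ * X (t + ((H + 1 : ℕ) : ℤ))) := by
      unfold Pc
      rw [prod_Icc_succ_top (by omega)]
    have hx : 0 ≤ X (t + ((H + 1 : ℕ) : ℤ)) ∧ X (t + ((H + 1 : ℕ) : ℤ)) ≤ 1 := by
      rcases h01 (t + ((H + 1 : ℕ) : ℤ)) with h | h <;> rw [h] <;> norm_num
    set x := X (t + ((H + 1 : ℕ) : ℤ)) with hxd
    have h2 : τ * x ≤ 1 := by nlinarith [hx.1, hx.2]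
    have h3 : 0 ≤ τ * x := mul_nonneg h0 hx.1
    have h4 : 1 - τ * x ≤ Real.exp (-(τ * x)) := by
      have := Real.add_one_le_exp (-(τ * x))
      linarith
    rw [hs]
    refine ⟨mul_nonneg i0 (by linarith), ?_, ?_⟩
    · rw [sum_range_succ, mul_add, neg_add, Real.exp_add]
      exact mul_le_mul i1 h4 (by linarith) (Real.exp_pos _).le
    · exact mul_le_one₀ i2 (by linarith) (by linarith)

theorem tl (hPER : StmtPER) : StmtTL := by
  intro Q X hX τ b H δ hτ0 hτ1 hδ0 hb hbH hconc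
  have hQ : (0 : ℝ) < (Q : ℝ) := by exact_mod_cast hX.pos
  have hX0 : ∀ t, 0 ≤ X t := by
    intro t
    rcases hX.zo t with h | h <;> rw [h] <;> norm_num
  set ρ : ℝ := Av Q X with hρ
  have hρ0 : 0 ≤ ρ := by
    rw [hρ]; unfold Av
    exact div_nonneg (sum_nonneg fun t _ => hX0 _) hQ.le
  set k : ℕ := H / b with hk
  have hkb : k * b ≤ H := Nat.div_mul_le_self H b
  have hk1 : 1 ≤ k := (Nat.one_le_div_iff (by omega)).mpr hbH
  have hkH : k ≤ H := Nat.div_le_self H b
  have hk2 : H ≤ 2 * (k * b) := by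
    have h1 : H < (k + 1) * b := by
      have h2 := Nat.div_add_mod H b
      have h3 := Nat.mod_lt H (show 0 < b by omega)
      rw [hk]
      calc H = b * (H / b) + H % b := h2.symm
        _ < b * (H / b) + b := by omega
        _ = (H / b + 1) * b := by ring
    have h4 : b ≤ k * b := Nat.le_mul_of_pos_left b (by omega)
    have h5 : (k + 1) * b = k * b + b := by ring
    omega
  have hbad : Av Q (bad Q X b) ≤ δ := hconc
  have hper : Per Q (bad Q X b) := by
    intro t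
    have : Nb X b (t + Q) = Nb X b t := by
      unfold Nb
      refine sum_congr rfl fun i _ => ?_
      have := hX.per (t + i)
      rw [← this]
      congr 1; ring
    unfold bad
    rw [this]
  have hpt : ∀ t : ℤ, Pc X τ H t ≤ Real.exp (-(τ * ρ * H / 4)) +
      ∑ j ∈ range k, bad Q X b (t + (1 + ((j * b : ℕ) : ℤ))) := by
    intro t
    obtain ⟨_, hp1, hp2⟩ := Pc_nonneg_le hX.zo hτ0 hτ1 H t
    by_cases hg : ∀ j ∈ range k, bad Q X b (t + (1 + ((j * b : ℕ) : ℤ))) = 0
    · rw [sum_eq_zero hg, add_zero]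
      refine hp1.trans (Real.exp_le_exp.mpr ?_)
      have hNb : ∀ j ∈ range k, ρ * b / 2 ≤ Nb X b (t + (1 + ((j * b : ℕ) : ℤ))) := by
        intro j hj
        have h1 := hg j hj
        unfold bad at h1
        split_ifs at h1 with h2
        · norm_num at h1
        · rw [not_lt] at h2
          have h3 := (abs_le.mp h2).1
          rw [← hρ] at h3
          linarith
      have hsum : (k : ℝ) * (ρ * b / 2) ≤ ∑ m ∈ range H, X (t + ((m + 1 : ℕ) : ℤ)) := by
        calc (k : ℝ) * (ρ * b / 2) = ∑ j ∈ range k, ρ * b / 2 := by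
              rw [sum_const, card_range, nsmul_eq_mul]
          _ ≤ ∑ j ∈ range k, Nb X b (t + (1 + ((j * b : ℕ) : ℤ))) := sum_le_sum hNb
          _ = ∑ j ∈ range k, ∑ i ∈ range b, X (t + ((j * b + i + 1 : ℕ) : ℤ)) := by
              refine sum_congr rfl fun j _ => ?_
              unfold Nb
              refine sum_congr rfl fun i _ => ?_
              congr 1; push_cast; ring
          _ = ∑ m ∈ range (k * b), X (t + ((m + 1 : ℕ) : ℤ)) :=
              sum_blocks (fun m => X (t + ((m + 1 : ℕ) : ℤ))) b k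
          _ ≤ ∑ m ∈ range H, X (t + ((m + 1 : ℕ) : ℤ)) := by
              apply sum_le_sum_of_subset_of_nonneg
              · exact range_subset_range.mpr hkb
              · intro m _ _; exact hX0 _
      have hkb' : (H : ℝ) ≤ 2 * (k * b) := by exact_mod_cast hk2
      have h5 : ρ * H / 4 ≤ (k : ℝ) * (ρ * b / 2) := by nlinarith
      have h6 : τ * (ρ * H / 4) ≤ τ * ∑ m ∈ range H, X (t + ((m + 1 : ℕ) : ℤ)) :=
        mul_le_mul_of_nonneg_left (h5.trans hsum) hτ0
      have h7 : τ * ρ * H / 4 = τ * (ρ * H / 4) := by ring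
      rw [h7]
      linarith
    · push Not at hg
      obtain ⟨j, hj, hne⟩ := hg
      have h1 : bad Q X b (t + (1 + ((j * b : ℕ) : ℤ))) = 1 := by
        unfold bad at hne ⊢
        split_ifs at hne ⊢ with h2
        · rfl
        · exact absurd rfl hne
      have h2 : (1 : ℝ) ≤ ∑ j ∈ range k, bad Q X b (t + (1 + ((j * b : ℕ) : ℤ))) := by
        rw [← h1]
        exact single_le_sum (f := fun j : ℕ => bad Q X b (t + (1 + ((j * b : ℕ) : ℤ))))
          (fun i _ => bad_nonneg Q X b _) hj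
      have h3 := Real.exp_pos (-(τ * ρ * H / 4))
      linarith
  have hsh : ∀ j : ℕ, (∑ t ∈ range Q, bad Q X b ((t : ℤ) + (1 + ((j * b : ℕ) : ℤ)))) ≤ δ * Q := by
    intro j
    have h1 := hPER.shift Q (bad Q X b) hper (1 + ((j * b : ℕ) : ℤ))
    have h2 : Av Q (fun t => bad Q X b (t + (1 + ((j * b : ℕ) : ℤ)))) ≤ δ := by
      rw [h1]; exact hbad
    unfold Av at h2
    rwa [div_le_iff₀ hQ] at h2
  have hfin : ∑ t ∈ range Q, Pc X τ H (t : ℤ) ≤
      (Real.exp (-(τ * ρ * H / 4)) + H * δ) * Q := by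
    calc ∑ t ∈ range Q, Pc X τ H (t : ℤ)
        ≤ ∑ t ∈ range Q, (Real.exp (-(τ * ρ * H / 4)) +
          ∑ j ∈ range k, bad Q X b ((t : ℤ) + (1 + ((j * b : ℕ) : ℤ)))) :=
          sum_le_sum fun t _ => hpt t
      _ = Q * Real.exp (-(τ * ρ * H / 4)) +
          ∑ j ∈ range k, ∑ t ∈ range Q, bad Q X b ((t : ℤ) + (1 + ((j * b : ℕ) : ℤ))) := by
          rw [sum_add_distrib, sum_const, card_range, nsmul_eq_mul, sum_comm]
      _ ≤ Q * Real.exp (-(τ * ρ * H / 4)) + ∑ j ∈ range k, δ * Q := by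
          gcongr with j _
          exact hsh j
      _ = (Real.exp (-(τ * ρ * H / 4)) + k * δ) * Q := by
          rw [sum_const, card_range, nsmul_eq_mul]; ring
      _ ≤ (Real.exp (-(τ * ρ * H / 4)) + H * δ) * Q := by
          have : (k : ℝ) ≤ H := by exact_mod_cast hkH
          gcongr
  unfold Av
  rw [div_le_iff₀ hQ]
  exact hfin

end Pool.Agent.Helper6.TB
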